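import Mathlib

/-!
# A free family with braid relations in `SL(2, ℤ)` (module M6)

`mB = [[1, -1], [0, 1]]` and `tB z = [[1 + z, -z²], [1, 1 - z]]` satisfy
`mB * tB z * mB = tB z * mB * tB z`, and `tB (4 j)`, `j ∈ ℕ`, is a free family (ping-pong).
-/

open Matrix
open scoped Pointwise

namespace Pool.Agent.OneCell

/-- the upper triangular element -/
def mB : SpecialLinearGroup (Fin 2) ℤ := ⟨!![1, -1; 0, 1], by simp [Matrix.det_fin_two]⟩

/-- its conjugates -/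
def tB (z : ℤ) : SpecialLinearGroup (Fin 2) ℤ :=
  ⟨!![1 + z, -z ^ 2; 1, 1 - z], by
    rw [Matrix.det_fin_two]
    simp
    ring⟩

/-- the inverse of `tB z` -/
def tBi (z : ℤ) : SpecialLinearGroup (Fin 2) ℤ :=
  ⟨!![1 - z, z ^ 2; -1, 1 + z], by
    rw [Matrix.det_fin_two]
    simp
    ring⟩

lemma braid_mB_tB (z : ℤ) : mB * tB z * mB = tB z * mB * tB z := by
  ext i j
  fin_cases i <;> fin_cases j <;>
    simp [mB, tB, Matrix.mul_apply, Fin.sum_univ_two] <;> ring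

private lemma tB_mul_tBi (z : ℤ) : tB z * tBi z = 1 := by
  ext i j
  fin_cases i <;> fin_cases j <;>
    simp [tBi, tB, Matrix.mul_apply, Fin.sum_univ_two] <;> ring

private lemma tB_inv (z : ℤ) : (tB z)⁻¹ = tBi z := by
  rw [inv_eq_iff_mul_eq_one]
  exact tB_mul_tBi z

/-- nonzero integral vectors -/
def NV : Type := {v : Fin 2 → ℤ // v ≠ 0}

private def mt (g : SpecialLinearGroup (Fin 2) ℤ) : Matrix (Fin 2) (Fin 2) ℤ := g.1

private lemma mt_mul (g h : SpecialLinearGroup (Fin 2) ℤ) : mt (g * h) = mt g * mt h := rfl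

private lemma mt_one : mt 1 = 1 := rfl

private lemma mulVec_ne (g : SpecialLinearGroup (Fin 2) ℤ) {v : Fin 2 → ℤ} (hv : v ≠ 0) :
    mt g *ᵥ v ≠ 0 := by
  intro h
  apply hv
  have h1 : mt g⁻¹ *ᵥ (mt g *ᵥ v) = v := by
    rw [Matrix.mulVec_mulVec, ← mt_mul, inv_mul_cancel, mt_one, Matrix.one_mulVec]
  rw [← h1, h, Matrix.mulVec_zero]

instance : MulAction (SpecialLinearGroup (Fin 2) ℤ) NV where
  smul g v := ⟨mt g *ᵥ v.1, mulVec_ne g v.2⟩
  one_smul v := Subtype.ext (by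
    change mt 1 *ᵥ v.1 = v.1
    rw [mt_one, Matrix.one_mulVec])
  mul_smul g h v := Subtype.ext (by
    change mt (g * h) *ᵥ v.1 = mt g *ᵥ (mt h *ᵥ v.1)
    rw [mt_mul, Matrix.mulVec_mulVec])

private lemma smul_val (g : SpecialLinearGroup (Fin 2) ℤ) (v : NV) :
    (g • v).1 = mt g *ᵥ v.1 := rfl

private lemma tB_smul0 (z : ℤ) (v : NV) : (tB z • v).1 0 = (1 + z) * v.1 0 - z ^ 2 * v.1 1 := by
  rw [smul_val]
  simp [mt, tB, Matrix.mulVec, dotProduct, Fin.sum_univ_two]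
  ring

private lemma tB_smul1 (z : ℤ) (v : NV) : (tB z • v).1 1 = v.1 0 + (1 - z) * v.1 1 := by
  rw [smul_val]
  simp [mt, tB, Matrix.mulVec, dotProduct, Fin.sum_univ_two]

private lemma tBi_smul0 (z : ℤ) (v : NV) : (tBi z • v).1 0 = (1 - z) * v.1 0 + z ^ 2 * v.1 1 := by
  rw [smul_val]
  simp [mt, tBi, Matrix.mulVec, dotProduct, Fin.sum_univ_two]

private lemma tBi_smul1 (z : ℤ) (v : NV) : (tBi z • v).1 1 = -v.1 0 + (1 + z) * v.1 1 := by
  rw [smul_val]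
  simp [mt, tBi, Matrix.mulVec, dotProduct, Fin.sum_univ_two]

/-- the attracting set -/
def XB (z : ℤ) : Set NV := {v | (v.1 0 - z * v.1 1) ^ 2 ≤ 2 * v.1 1 * (v.1 0 - z * v.1 1)}

/-- the repelling set -/
def YB (z : ℤ) : Set NV := {v | 2 * v.1 1 * (v.1 0 - z * v.1 1) < -(v.1 0 - z * v.1 1) ^ 2}

private lemma y_ne {z : ℤ} {v : NV} (h : v ∈ XB z ∨ v ∈ YB z) : v.1 1 ≠ 0 := by
  intro h0
  have hx : v.1 0 = 0 := by
    rcases h with h | h
    · simp only [XB, Set.mem_ofPred_eq, h0, mul_zero, zero_mul, sub_zero] at h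
      nlinarith [sq_nonneg (v.1 0)]
    · simp only [YB, Set.mem_ofPred_eq, h0, mul_zero, zero_mul, sub_zero] at h
      nlinarith [sq_nonneg (v.1 0)]
  apply v.2
  funext i
  fin_cases i
  · exact hx
  · exact h0

/-- both sets lie in the half-open interval `x / y ∈ (z - 2, z + 2]` -/
private lemma range_of {z : ℤ} {v : NV} (h : v ∈ XB z ∨ v ∈ YB z) :
    -2 * v.1 1 ^ 2 < (v.1 0 - z * v.1 1) * v.1 1 ∧
      (v.1 0 - z * v.1 1) * v.1 1 ≤ 2 * v.1 1 ^ 2 := by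
  have hy := y_ne h
  have hy2 : 0 < v.1 1 ^ 2 := by positivity
  set q := v.1 0 - z * v.1 1 with hq
  set y := v.1 1 with hydef
  rcases h with h | h
  · have h' : q ^ 2 ≤ 2 * y * q := h
    constructor
    · nlinarith [sq_nonneg q]
    · nlinarith [sq_nonneg (q - 2 * y), sq_nonneg q]
  · have h' : 2 * y * q < -q ^ 2 := h
    constructor
    · -- q² < -2 y q, so |q| < 2 |y|, q ≠ 0
      by_contra hcon
      push Not at hcon
      have h1 : 0 < -(y * q) := by nlinarith [sq_nonneg q]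
      -- q y ≤ -2 y²
      have h2 : q ^ 2 * y ^ 2 < (-2 * (y * q)) * y ^ 2 := by nlinarith
      nlinarith [mul_pos h1 hy2, sq_nonneg (q * y + 2 * y ^ 2)]
    · nlinarith [sq_nonneg q]

private lemma disj {z z' : ℤ} (hz : z + 4 ≤ z') {v : NV} (h : v ∈ XB z ∨ v ∈ YB z)
    (h' : v ∈ XB z' ∨ v ∈ YB z') : False := by
  have hy := y_ne h
  have hy2 : 0 < v.1 1 ^ 2 := by positivity
  have h1 := range_of h
  have h2 := range_of h'
  nlinarith [mul_le_mul_of_nonneg_right hz hy2.le]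

private lemma disjXY (z : ℤ) {v : NV} (h : v ∈ XB z) (h' : v ∈ YB z) : False := by
  have h1 : (v.1 0 - z * v.1 1) ^ 2 ≤ 2 * v.1 1 * (v.1 0 - z * v.1 1) := h
  have h2 : 2 * v.1 1 * (v.1 0 - z * v.1 1) < -(v.1 0 - z * v.1 1) ^ 2 := h'
  nlinarith [sq_nonneg (v.1 0 - z * v.1 1)]

/-- **The elements `tB (4 j)` are a free family.** -/
theorem tB_free : Function.Injective
    (FreeGroup.lift (fun j : ℕ => tB (4 * (j:ℤ))) : FreeGroup ℕ →* SpecialLinearGroup (Fin 2) ℤ) := by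
  refine FreeGroup.injective_lift_of_ping_pong (fun j : ℕ => tB (4 * (j:ℤ)))
    (fun j : ℕ => XB (4 * (j:ℤ))) (fun j : ℕ => YB (4 * (j:ℤ))) ?_ ?_ ?_ ?_ ?_ ?_
  · intro j
    refine ⟨⟨![4 * (j:ℤ), 1], fun h => ?_⟩, ?_⟩
    · have := congrFun h 1
      simp at this
    · simp only [XB, Set.mem_ofPred_eq]
      simp
  · intro i j hij
    rw [Function.onFun, Set.disjoint_left]
    intro v h1 h2
    rcases lt_or_gt_of_ne hij with h | h
    · exact disj (by omega) (Or.inl h1) (Or.inl h2)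
    · exact disj (by omega) (Or.inl h2) (Or.inl h1)
  · intro i j hij
    rw [Function.onFun, Set.disjoint_left]
    intro v h1 h2
    rcases lt_or_gt_of_ne hij with h | h
    · exact disj (by omega) (Or.inr h1) (Or.inr h2)
    · exact disj (by omega) (Or.inr h2) (Or.inr h1)
  · intro i j
    rw [Set.disjoint_left]
    intro v h1 h2
    rcases lt_trichotomy i j with h | h | h
    · exact disj (by omega) (Or.inl h1) (Or.inr h2)
    · subst h
      exact disjXY _ h1 h2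
    · exact disj (by omega) (Or.inr h2) (Or.inl h1)
  · intro j v hv
    obtain ⟨w, hw, rfl⟩ := Set.mem_smul_set.mp hv
    have hw' : ¬ (2 * w.1 1 * (w.1 0 - (4 * (j:ℤ)) * w.1 1) < -(w.1 0 - (4 * (j:ℤ)) * w.1 1) ^ 2) := hw
    change ((tB (4 * (j:ℤ)) • w).1 0 - (4 * (j:ℤ)) * (tB (4 * (j:ℤ)) • w).1 1) ^ 2 ≤
      2 * (tB (4 * (j:ℤ)) • w).1 1 *
        ((tB (4 * (j:ℤ)) • w).1 0 - (4 * (j:ℤ)) * (tB (4 * (j:ℤ)) • w).1 1)
    rw [tB_smul0, tB_smul1]
    push Not at hw'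
    nlinarith
  · intro j v hv
    obtain ⟨w, hw, rfl⟩ := Set.mem_smul_set.mp hv
    have hw' : ¬ ((w.1 0 - (4 * (j:ℤ)) * w.1 1) ^ 2 ≤ 2 * w.1 1 * (w.1 0 - (4 * (j:ℤ)) * w.1 1)) := hw
    have e : ((fun j : ℕ => tB (4 * (j:ℤ)))⁻¹ j) = tBi (4 * (j:ℤ)) := tB_inv _
    change 2 * (((fun j : ℕ => tB (4 * (j:ℤ)))⁻¹ j) • w).1 1 *
        ((((fun j : ℕ => tB (4 * (j:ℤ)))⁻¹ j) • w).1 0 -
          (4 * (j:ℤ)) * (((fun j : ℕ => tB (4 * (j:ℤ)))⁻¹ j) • w).1 1) <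
      -((((fun j : ℕ => tB (4 * (j:ℤ)))⁻¹ j) • w).1 0 -
        (4 * (j:ℤ)) * (((fun j : ℕ => tB (4 * (j:ℤ)))⁻¹ j) • w).1 1) ^ 2
    rw [e, tBi_smul0, tBi_smul1]
    push Not at hw'
    nlinarith

/-- **Free families with braid relations.** -/
theorem exists_braid_family {ι : Type*} [Countable ι] : ∃ t : ι → SpecialLinearGroup (Fin 2) ℤ,
    (∀ i, mB * t i * mB = t i * mB * t i) ∧
    Function.Injective (FreeGroup.lift t : FreeGroup ι →* SpecialLinearGroup (Fin 2) ℤ) := by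
  obtain ⟨f, hf⟩ := exists_injective_nat ι
  refine ⟨fun i => tB (4 * (f i : ℤ)), fun i => braid_mB_tB _, ?_⟩
  have h1 : (FreeGroup.lift (fun i => tB (4 * (f i : ℤ))) : FreeGroup ι →* _) =
      (FreeGroup.lift (fun j : ℕ => tB (4 * (j:ℤ)))).comp (FreeGroup.map f) := by
    ext i
    simp
  rw [h1, MonoidHom.coe_comp]
  exact tB_free.comp (FreeGroup.map_injective hf)

end Pool.Agent.OneCell
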