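import Pool.Agent.ZO.Dich

/-!
# One non-aspherical labelled oriented tree gives many

A labelled oriented tree whose complex is not aspherical can be glued at a vertex to any other
labelled oriented tree. So the proportion of the trees on `Fin n` whose complex is not aspherical is
at least a negative power of `n`, as soon as there is one such tree.
-/

set_option autoImplicit false

open scoped BigOperators

namespace Pool.Agent.OneCell

open Pool.Agent.FoxAsph Pool.Agent.WT Pool.Agent.WT.Trees Pool.Agent.GX Pool.Agent.ZO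

section desc

variable {V : Type}

/-- every description comes from a labelled oriented tree -/
theorem exists_lot [Finite V] {p : V → V} {r : V} (hp : p ∈ PF r) (o : V → Bool) (l : V → V) :
    ∃ Γ : LOT V, Desc Γ p r o l := by
  classical
  have hv : ∀ e : (pGraph p).edgeSet, ∃ x, x ≠ r ∧ (e : Sym2 V) = s(x, p x) := by
    intro e
    obtain ⟨e, he⟩ := e
    induction e using Sym2.ind with
    | _ a b =>
      rw [SimpleGraph.mem_edgeSet, pGraph_adj] at he
      rcases he with ⟨hab, h | h⟩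
      · refine ⟨a, ?_, ?_⟩
        · rintro rfl
          exact hab (hp.1.symm.trans h)
        · show s(a, b) = s(a, p a)
          rw [h]
      · refine ⟨b, ?_, ?_⟩
        · rintro rfl
          exact hab (h.symm.trans hp.1)
        · show s(a, b) = s(b, p b)
          rw [h]
          exact Sym2.eq_swap
  choose x hx hex using hv
  refine ⟨⟨pGraph p, pGraph_isTree hp, fun e => if o (x e) = true then p (x e) else x e,
    fun e => if o (x e) = true then x e else p (x e), ?_, fun e => l (x e)⟩, ⟨hp, rfl, ?_⟩⟩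
  · intro e
    rw [hex e]
    by_cases ho : o (x e) = true
    · simp only [if_pos ho]
      exact Sym2.eq_swap
    · simp only [if_neg ho]
  · intro y hy e he
    have hxy : x e = y := edge_unique hp (hx e) ((hex e).symm.trans he)
    show l (x e) = l y ∧ _
    refine ⟨by rw [hxy], fun ho => ?_, fun ho => ?_⟩
    · show (if o (x e) = true then p (x e) else x e) = p y ∧
        (if o (x e) = true then x e else p (x e)) = y
      rw [hxy, if_pos ho, if_pos ho]
      exact ⟨rfl, rfl⟩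
    · show (if o (x e) = true then p (x e) else x e) = y ∧
        (if o (x e) = true then x e else p (x e)) = p y
      rw [hxy, ho]
      exact ⟨if_neg Bool.false_ne_true, if_neg Bool.false_ne_true⟩

/-- the labelled oriented tree determines its description, off the root -/
theorem Desc.inj {Γ : LOT V} {p p' : V → V} {r : V} {o o' : V → Bool} {l l' : V → V}
    (h : Desc Γ p r o l) (h' : Desc Γ p' r o' l') :
    p = p' ∧ ∀ x, x ≠ r → o x = o' x ∧ l x = l' x := by
  have hpp : p = p' := pGraph_inj h.mem h'.mem (h.graph.trans h'.graph.symm)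
  subst hpp
  refine ⟨rfl, fun x hx => ?_⟩
  have hadj : s(x, p x) ∈ Γ.graph.edgeSet := by
    rw [← h.graph]
    exact adj_parent h.mem x hx
  obtain ⟨h1, h2, h3⟩ := h.edge x hx ⟨s(x, p x), hadj⟩ rfl
  obtain ⟨h1', h2', h3'⟩ := h'.edge x hx ⟨s(x, p x), hadj⟩ rfl
  refine ⟨?_, h1.symm.trans h1'⟩
  have hne := ne_parent h.mem x hx
  cases ho : o x with
  | true =>
    cases ho' : o' x with
    | true => rfl
    | false => exact absurd ((h3' ho').1.symm.trans (h2 ho).1) hne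
  | false =>
    cases ho' : o' x with
    | true => exact absurd ((h3 ho).1.symm.trans (h2' ho').1) hne
    | false => rfl

/-- the value of the relator of an edge -/
theorem lift_rel {G : Type} [Group G] {Γ : LOT V} {p : V → V} {r : V} {o : V → Bool} {l : V → V}
    (hD : Desc Γ p r o l) (Θ : V → G) (e : Γ.graph.edgeSet) (x : V)
    (hx : x ≠ r) (hex : (e : Sym2 V) = s(x, p x)) :
    FreeGroup.lift Θ (FreeGroup.mk (Γ.rel e)) = EVal p o l Θ x := by
  obtain ⟨h1, h2, h3⟩ := hD.edge x hx e hex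
  unfold LOT.rel
  rw [lift_four]
  unfold EVal
  by_cases ho : o x = true
  · obtain ⟨h4, h5⟩ := h2 ho
    rw [if_pos ho, h1, h4, h5]
  · obtain ⟨h4, h5⟩ := h3 (by simpa using ho)
    rw [if_neg ho, h1, h4, h5]

end desc

section glue

variable {m k : ℕ}

/-- the vertices of the second tree -/
def sg (a : Fin m) : Fin (k + 1) → Fin (m + k) :=
  Fin.cases (Fin.castAdd k a) (Fin.natAdd m)

/-- the parents in the glued tree -/
def gp (a : Fin m) (p₀ : Fin m → Fin m) (p₁ : Fin (k + 1) → Fin (k + 1)) :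
    Fin (m + k) → Fin (m + k) :=
  Fin.addCases (fun x => Fin.castAdd k (p₀ x)) (fun i => sg a (p₁ i.succ))

/-- the orientations in the glued tree -/
def go (o₀ : Fin m → Bool) (o₁ : Fin k → Bool) : Fin (m + k) → Bool :=
  Fin.addCases o₀ o₁

/-- the labels in the glued tree -/
def gl (a : Fin m) (l₀ : Fin m → Fin m) (l₁ : Fin k → Fin (k + 1)) : Fin (m + k) → Fin (m + k) :=
  Fin.addCases (fun x => Fin.castAdd k (l₀ x)) (fun i => sg a (l₁ i))

theorem sg_zero (a : Fin m) : sg (k := k) a 0 = Fin.castAdd k a := rfl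

theorem sg_succ (a : Fin m) (i : Fin k) : sg a i.succ = Fin.natAdd m i := rfl

theorem gp_left (a : Fin m) (p₀ : Fin m → Fin m) (p₁ : Fin (k + 1) → Fin (k + 1)) (x : Fin m) :
    gp a p₀ p₁ (Fin.castAdd k x) = Fin.castAdd k (p₀ x) := by
  unfold gp
  rw [Fin.addCases_left]

theorem gp_right (a : Fin m) (p₀ : Fin m → Fin m) (p₁ : Fin (k + 1) → Fin (k + 1)) (i : Fin k) :
    gp a p₀ p₁ (Fin.natAdd m i) = sg a (p₁ i.succ) := by
  unfold gp
  rw [Fin.addCases_right]

theorem gp_sg {a : Fin m} {p₀ : Fin m → Fin m} {p₁ : Fin (k + 1) → Fin (k + 1)}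
    (h₀ : p₀ a = a) (h₁ : p₁ 0 = 0) (i : Fin (k + 1)) : gp a p₀ p₁ (sg a i) = sg a (p₁ i) := by
  refine Fin.cases ?_ (fun i => ?_) i
  · rw [sg_zero, gp_left, h₀, h₁, sg_zero]
  · rw [sg_succ, gp_right]

theorem sg_inj (a : Fin m) : Function.Injective (sg (k := k) a) := by
  intro i j
  refine Fin.cases ?_ (fun i => ?_) i <;> refine Fin.cases ?_ (fun j => ?_) j
  · intro _; rfl
  · intro h
    rw [sg_zero, sg_succ] at h
    have := congrArg Fin.val h
    simp at this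
    omega
  · intro h
    rw [sg_zero, sg_succ] at h
    have := congrArg Fin.val h
    simp at this
    omega
  · intro h
    rw [sg_succ, sg_succ] at h
    have := congrArg Fin.val h
    simp at this
    rw [Fin.ext this]

theorem gp_mem {a : Fin m} {p₀ : Fin m → Fin m} {p₁ : Fin (k + 1) → Fin (k + 1)}
    (h₀ : p₀ ∈ PF a) (h₁ : p₁ ∈ PF (0 : Fin (k + 1))) : gp a p₀ p₁ ∈ PF (Fin.castAdd k a) := by
  refine ⟨by rw [gp_left, h₀.1], ?_⟩
  intro u
  refine Fin.addCases (fun x => ?_) (fun i => ?_) u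
  · obtain ⟨j, hj⟩ := h₀.2 x
    refine ⟨j, ?_⟩
    have hs : Function.Semiconj (Fin.castAdd k) p₀ (gp a p₀ p₁) := fun x => (gp_left a p₀ p₁ x).symm
    have := (hs.iterate_right j) x
    rw [← this, hj]
  · obtain ⟨j, hj⟩ := h₁.2 i.succ
    refine ⟨j, ?_⟩
    have hs : Function.Semiconj (sg a) p₁ (gp a p₀ p₁) := fun x => (gp_sg h₀.1 h₁.1 x).symm
    have := (hs.iterate_right j) i.succ
    rw [← sg_succ a i, ← this, hj, sg_zero]

theorem eval_left (a : Fin m) (p₀ : Fin m → Fin m) (p₁ : Fin (k + 1) → Fin (k + 1))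
    (o₀ : Fin m → Bool) (o₁ : Fin k → Bool) (l₀ : Fin m → Fin m) (l₁ : Fin k → Fin (k + 1))
    {G : Type} [Group G] (Θ : Fin (m + k) → G) (y : Fin m) :
    EVal (gp a p₀ p₁) (go o₀ o₁) (gl a l₀ l₁) Θ (Fin.castAdd k y) =
      EVal p₀ o₀ l₀ (fun z => Θ (Fin.castAdd k z)) y := by
  unfold EVal go gl
  rw [gp_left, Fin.addCases_left, Fin.addCases_left]

/-- asphericity of the glued complex implies that of the first one -/
theorem glue_asph {Γ₀ : LOT (Fin m)} {a : Fin m} {p₀ : Fin m → Fin m} {o₀ : Fin m → Bool}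
    {l₀ : Fin m → Fin m} (hD₀ : Desc Γ₀ p₀ a o₀ l₀) {p₁ : Fin (k + 1) → Fin (k + 1)}
    {o₁ : Fin k → Bool} {l₁ : Fin k → Fin (k + 1)} {Γ : LOT (Fin (m + k))}
    (hD : Desc Γ (gp a p₀ p₁) (Fin.castAdd k a) (go o₀ o₁) (gl a l₀ l₁))
    [Fintype Γ₀.graph.edgeSet] [Fintype Γ.graph.edgeSet] (h : Aspherical Γ.rel) :
    Aspherical Γ₀.rel := by
  have hv₀ := fun e : Γ₀.graph.edgeSet => exists_vertex Γ₀ a p₀ hD₀.mem hD₀.graph e
  choose x₀ hx₀ hex₀ using hv₀
  have hne : ∀ {y : Fin m}, y ≠ a → Fin.castAdd k y ≠ Fin.castAdd k a := fun hy hh =>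
    hy (Fin.castAdd_injective m k hh)
  have hmem : ∀ y : Fin m, y ≠ a →
      s(Fin.castAdd k y, gp a p₀ p₁ (Fin.castAdd k y)) ∈ Γ.graph.edgeSet := by
    intro y hy
    rw [← hD.graph]
    exact adj_parent hD.mem _ (hne hy)
  let j : Γ₀.graph.edgeSet → Γ.graph.edgeSet := fun e =>
    ⟨s(Fin.castAdd k (x₀ e), gp a p₀ p₁ (Fin.castAdd k (x₀ e))), hmem _ (hx₀ e)⟩
  have hj : Function.Injective j := by
    intro e e' hee
    have h1 : s(Fin.castAdd k (x₀ e), gp a p₀ p₁ (Fin.castAdd k (x₀ e))) =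
        s(Fin.castAdd k (x₀ e'), gp a p₀ p₁ (Fin.castAdd k (x₀ e'))) := congrArg Subtype.val hee
    have h2 := edge_unique hD.mem (hne (hx₀ e)) h1
    have h3 : x₀ e = x₀ e' := Fin.castAdd_injective m k h2
    apply Subtype.ext
    rw [hex₀ e, hex₀ e', h3]
  have key : ∀ (G : Type) [Group G] (Θ : Fin (m + k) → G) (e : Γ₀.graph.edgeSet),
      FreeGroup.lift (fun x => Θ (Fin.castAdd k x)) (FreeGroup.mk (Γ₀.rel e)) =
        FreeGroup.lift Θ (FreeGroup.mk (Γ.rel (j e))) := by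
    intro G _ Θ e
    rw [lift_rel hD₀ _ e (x₀ e) (hx₀ e) (hex₀ e),
      lift_rel hD Θ (j e) (Fin.castAdd k (x₀ e)) (hne (hx₀ e)) rfl, eval_left]
  refine transfer Γ₀.rel Γ.rel (Fin.castAdd k) j (fun e => (Fintype.equivFin _ e : ℕ)) ?_ ?_ ?_ h
  · intro e e' hee
    exact (Fintype.equivFin _).injective (Fin.ext hee)
  · let f : Fin (m + k) → Grp Γ₀.rel :=
      Fin.addCases (fun x => val Γ₀.rel [(x, true)]) (fun _ => val Γ₀.rel [(a, true)])
    have hfl : ∀ x, f (Fin.castAdd k x) = val Γ₀.rel [(x, true)] := fun x => by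
      simp only [f, Fin.addCases_left]
    have hfr : ∀ i, f (Fin.natAdd m i) = val Γ₀.rel [(a, true)] := fun i => by
      simp only [f, Fin.addCases_right]
    have hfs : ∀ i, f (sg a i) = val Γ₀.rel [(a, true)] := by
      intro i
      refine Fin.cases ?_ (fun i => ?_) i
      · rw [sg_zero, hfl]
      · rw [sg_succ, hfr]
    have hf : ∀ e : Γ.graph.edgeSet, FreeGroup.lift f (FreeGroup.mk (Γ.rel e)) = 1 := by
      intro e
      obtain ⟨x, hx, hex⟩ := exists_vertex Γ _ _ hD.mem hD.graph e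
      rw [lift_rel hD f e x hx hex]
      clear hex
      revert hx
      refine Fin.addCases (fun y hx => ?_) (fun i hx => ?_) x
      · have hy : y ≠ a := fun hh => hx (by rw [hh])
        rw [eval_left]
        have hmem₀ : s(y, p₀ y) ∈ Γ₀.graph.edgeSet := by
          rw [← hD₀.graph]
          exact adj_parent hD₀.mem y hy
        have h1 := lift_rel hD₀ (fun z => f (Fin.castAdd k z)) ⟨s(y, p₀ y), hmem₀⟩ y hy rfl
        rw [← h1]
        have h2 : (fun z => f (Fin.castAdd k z)) = fun z => val Γ₀.rel [(z, true)] := funext hfl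
        rw [h2, lift_val, val_rel]
      · unfold EVal go gl
        rw [gp_right, Fin.addCases_right, Fin.addCases_right]
        simp only [hfs, hfr]
        split <;> group
    refine ⟨PresentedGroup.toGroup (f := f) (by rintro _ ⟨i, rfl⟩; exact hf i), fun x => ?_⟩
    have h1 : PresentedGroup.toGroup (f := f) (rels := Set.range fun i : Γ.graph.edgeSet =>
        FreeGroup.mk (Γ.rel i)) (by rintro _ ⟨i, rfl⟩; exact hf i)
        (PresentedGroup.of (Fin.castAdd k x)) = f (Fin.castAdd k x) := PresentedGroup.toGroup.of _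
    exact (show _ = f (Fin.castAdd k x) from h1).trans (hfl x)
  · intro G _ Θ e₀ hΘ
    refine ⟨fun e he => ?_, key G Θ e₀⟩
    rw [key G Θ e]
    apply hΘ
    intro hh
    have := hj hh
    rw [this] at he
    exact lt_irrefl _ he

end glue

/-- The complex of a labelled oriented tree, with one vertex, the vertices of the tree as 1-cells and
a 2-cell for every edge, is aspherical. -/
def LotAsph {V : Type} [Finite V] (Γ : LOT V) : Prop :=
  haveI : Fintype Γ.graph.edgeSet := Fintype.ofFinite _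
  Aspherical Γ.rel

section count

variable {m : ℕ}

theorem finite_lot (n : ℕ) (hn : 0 < n) : Finite (LOT (Fin n)) := by
  refine Nat.finite_of_card_ne_zero ?_
  rw [card_lot, card_treeOn n ⟨0, hn⟩]
  positivity

/-- the number of glued trees -/
theorem bad_ge (Γ₀ : LOT (Fin m)) (h₀ : ¬ LotAsph Γ₀) (k : ℕ) :
    (k + 1) ^ (k - 1) * (2 ^ k * (k + 1) ^ k) ≤
      {Γ : LOT (Fin (m + k)) | ¬ LotAsph Γ}.ncard := by
  classical
  have hm : 0 < m := by
    have hne : Nonempty (Fin m) := Γ₀.isTree.connected.nonempty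
    exact Fin.pos_iff_nonempty.2 hne
  have hfin := finite_lot (m + k) (by omega)
  obtain ⟨p₀, o₀, l₀, hD₀, -, -⟩ := exists_desc Γ₀ ⟨0, hm⟩ true ⟨0, hm⟩
  set a : Fin m := ⟨0, hm⟩ with ha
  choose Γ hΓ using fun (t : PF (0 : Fin (k + 1)) × (Fin k → Bool) × (Fin k → Fin (k + 1))) =>
    exists_lot (gp_mem hD₀.mem t.1.2) (go o₀ t.2.1) (gl a l₀ t.2.2)
  have hbad : ∀ t, ¬ LotAsph (Γ t) := by
    intro t h
    apply h₀
    unfold LotAsph at h ⊢
    exact @glue_asph m k Γ₀ a p₀ o₀ l₀ hD₀ t.1.1 t.2.1 t.2.2 (Γ t) (hΓ t)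
      (Fintype.ofFinite _) (Fintype.ofFinite _) h
  have hinj : Function.Injective Γ := by
    rintro ⟨⟨p, hp⟩, o, l⟩ ⟨⟨p', hp'⟩, o', l'⟩ hh
    have h1 := hΓ (⟨⟨p, hp⟩, o, l⟩)
    have h2 := hΓ (⟨⟨p', hp'⟩, o', l'⟩)
    rw [← hh] at h2
    obtain ⟨h3, h4⟩ := Desc.inj h1 h2
    simp only at h3 h4
    have hne : ∀ i : Fin k, Fin.natAdd m i ≠ Fin.castAdd k a := by
      intro i hh
      have := congrArg Fin.val hh
      simp [ha] at this
      omega
    have hpp : p = p' := by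
      funext i
      refine Fin.cases ?_ (fun i => ?_) i
      · rw [hp.1, hp'.1]
      · have h5 := congrFun h3 (Fin.natAdd m i)
        rw [gp_right, gp_right] at h5
        exact sg_inj a h5
    have hoo : o = o' := by
      funext i
      have h5 := (h4 _ (hne i)).1
      unfold go at h5
      rwa [Fin.addCases_right, Fin.addCases_right] at h5
    have hll : l = l' := by
      funext i
      have h5 := (h4 _ (hne i)).2
      unfold gl at h5
      rw [Fin.addCases_right, Fin.addCases_right] at h5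
      exact sg_inj a h5
    subst hpp hoo hll
    rfl
  have hcard : Nat.card (PF (0 : Fin (k + 1)) × (Fin k → Bool) × (Fin k → Fin (k + 1))) =
      (k + 1) ^ (k - 1) * (2 ^ k * (k + 1) ^ k) := by
    rw [Nat.card_prod, Nat.card_prod, Nat.card_coe_set_eq, GX.card_PF, Fintype.card_fin,
      Nat.card_fun, Nat.card_fun, Nat.card_eq_fintype_card, Nat.card_eq_fintype_card,
      Nat.card_eq_fintype_card, Fintype.card_fin, Fintype.card_bool, Fintype.card_fin]
    congr 2
  rw [← hcard, ← Nat.card_coe_set_eq]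
  exact Nat.card_le_card_of_injective (fun t => (⟨Γ t, hbad t⟩ : {Γ : LOT (Fin (m + k)) |
    ¬ LotAsph Γ})) (fun t t' h => hinj (congrArg Subtype.val h))

theorem pow_ratio (N q j : ℕ) (hN : 0 < N) (hj : j ≤ N) :
    ((N + q : ℕ) : ℝ) ^ j ≤ (N : ℝ) ^ j * Real.exp q := by
  have hN' : (0 : ℝ) < N := Nat.cast_pos.2 hN
  have h1 : ((N + q : ℕ) : ℝ) = N * (1 + q / N) := by
    push_cast
    field_simp
  rw [h1, mul_pow]
  refine mul_le_mul_of_nonneg_left ?_ (by positivity)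
  have h2 : (1 + (q : ℝ) / N) ≤ Real.exp (q / N) := by
    have := Real.add_one_le_exp ((q : ℝ) / N)
    linarith
  calc (1 + (q : ℝ) / N) ^ j ≤ (1 + (q : ℝ) / N) ^ N :=
        pow_le_pow_right₀ (by have : (0 : ℝ) ≤ (q : ℝ) / N := by positivity
                              linarith) hj
    _ ≤ (Real.exp (q / N)) ^ N := pow_le_pow_left₀ (by positivity) h2 N
    _ = Real.exp q := by
        rw [← Real.exp_nat_mul]
        congr 1
        field_simp

theorem num (q k : ℕ) (hn : 2 ≤ k + 1 + q) :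
    (k + 1 + q) ^ (k + 1 + q - 2) * (2 ^ (k + 1 + q - 1) * (k + 1 + q) ^ (k + 1 + q - 1)) ≤
      (k + 1 + q) ^ (6 * q) * ((k + 1) ^ (k - 1) * (2 ^ k * (k + 1) ^ k)) := by
  have hn1 : (1 : ℝ) ≤ ((k + 1 + q : ℕ) : ℝ) := by
    exact_mod_cast (by omega : 1 ≤ k + 1 + q)
  have hn2 : (2 : ℝ) ≤ ((k + 1 + q : ℕ) : ℝ) := by exact_mod_cast hn
  have h1 : ((k + 1 + q : ℕ) : ℝ) ^ (k + 1 + q - 2) ≤
      ((k + 1 : ℕ) : ℝ) ^ (k - 1) * Real.exp q * ((k + 1 + q : ℕ) : ℝ) ^ q := by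
    calc ((k + 1 + q : ℕ) : ℝ) ^ (k + 1 + q - 2) ≤ ((k + 1 + q : ℕ) : ℝ) ^ (k - 1 + q) :=
          pow_le_pow_right₀ hn1 (by omega)
      _ = ((k + 1 + q : ℕ) : ℝ) ^ (k - 1) * ((k + 1 + q : ℕ) : ℝ) ^ q := pow_add _ _ _
      _ ≤ _ := mul_le_mul_of_nonneg_right (pow_ratio (k + 1) q (k - 1) (by omega) (by omega))
          (by positivity)
  have h2 : ((k + 1 + q : ℕ) : ℝ) ^ (k + 1 + q - 1) ≤
      ((k + 1 : ℕ) : ℝ) ^ k * Real.exp q * ((k + 1 + q : ℕ) : ℝ) ^ q := by
    calc ((k + 1 + q : ℕ) : ℝ) ^ (k + 1 + q - 1) = ((k + 1 + q : ℕ) : ℝ) ^ (k + q) := by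
          congr 1
          omega
      _ = ((k + 1 + q : ℕ) : ℝ) ^ k * ((k + 1 + q : ℕ) : ℝ) ^ q := pow_add _ _ _
      _ ≤ _ := mul_le_mul_of_nonneg_right (pow_ratio (k + 1) q k (by omega) (by omega))
          (by positivity)
  have h3 : (2 : ℝ) ^ (k + 1 + q - 1) = 2 ^ k * 2 ^ q := by
    rw [← pow_add]
    congr 1
    omega
  have h4 : Real.exp q * Real.exp q * 2 ^ q ≤ ((k + 1 + q : ℕ) : ℝ) ^ (4 * q) := by
    have he : Real.exp q = (Real.exp 1) ^ q := by
      rw [← Real.exp_nat_mul, mul_one]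
    rw [he, ← mul_pow, ← mul_pow, pow_mul]
    refine pow_le_pow_left₀ (by positivity) ?_ q
    have h5 := Real.exp_one_lt_d9
    have h6 := Real.exp_pos 1
    calc Real.exp 1 * Real.exp 1 * 2 ≤ 2 ^ 4 := by nlinarith
      _ ≤ ((k + 1 + q : ℕ) : ℝ) ^ 4 := pow_le_pow_left₀ (by norm_num) hn2 4
  have h7 : ((k + 1 + q : ℕ) : ℝ) ^ (6 * q) = ((k + 1 + q : ℕ) : ℝ) ^ (4 * q) *
      (((k + 1 + q : ℕ) : ℝ) ^ q * ((k + 1 + q : ℕ) : ℝ) ^ q) := by
    rw [← pow_add, ← pow_add]
    congr 1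
    omega
  have hR : ((k + 1 + q : ℕ) : ℝ) ^ (k + 1 + q - 2) *
      ((2 : ℝ) ^ (k + 1 + q - 1) * ((k + 1 + q : ℕ) : ℝ) ^ (k + 1 + q - 1)) ≤
      ((k + 1 + q : ℕ) : ℝ) ^ (6 * q) * (((k + 1 : ℕ) : ℝ) ^ (k - 1) *
        (2 ^ k * ((k + 1 : ℕ) : ℝ) ^ k)) := by
    rw [h3, h7]
    calc ((k + 1 + q : ℕ) : ℝ) ^ (k + 1 + q - 2) *
        (2 ^ k * 2 ^ q * ((k + 1 + q : ℕ) : ℝ) ^ (k + 1 + q - 1)) ≤
        (((k + 1 : ℕ) : ℝ) ^ (k - 1) * Real.exp q * ((k + 1 + q : ℕ) : ℝ) ^ q) *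
        (2 ^ k * 2 ^ q * (((k + 1 : ℕ) : ℝ) ^ k * Real.exp q * ((k + 1 + q : ℕ) : ℝ) ^ q)) := by
          gcongr
      _ = (Real.exp q * Real.exp q * 2 ^ q) * ((((k + 1 + q : ℕ) : ℝ) ^ q *
          ((k + 1 + q : ℕ) : ℝ) ^ q) * (((k + 1 : ℕ) : ℝ) ^ (k - 1) *
          (2 ^ k * ((k + 1 : ℕ) : ℝ) ^ k))) := by ring
      _ ≤ ((k + 1 + q : ℕ) : ℝ) ^ (4 * q) * ((((k + 1 + q : ℕ) : ℝ) ^ q *
          ((k + 1 + q : ℕ) : ℝ) ^ q) * (((k + 1 : ℕ) : ℝ) ^ (k - 1) *
          (2 ^ k * ((k + 1 : ℕ) : ℝ) ^ k))) :=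
          mul_le_mul_of_nonneg_right h4 (by positivity)
      _ = _ := by ring
  exact_mod_cast hR

/-- **The count.** If the complex of one labelled oriented tree with `m` vertices is not aspherical,
then for every `n ≥ max m 2` at least `n ^ (- 6 m)` of the labelled oriented trees on `Fin n` have a
complex that is not aspherical. -/
theorem bad_count (Γ₀ : LOT (Fin m)) (h₀ : ¬ LotAsph Γ₀) (n : ℕ) (hmn : m ≤ n) (hn : 2 ≤ n) :
    Nat.card (LOT (Fin n)) ≤ n ^ (6 * m) * {Γ : LOT (Fin n) | ¬ LotAsph Γ}.ncard := by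
  have hm : 0 < m := by
    have hne : Nonempty (Fin m) := Γ₀.isTree.connected.nonempty
    exact Fin.pos_iff_nonempty.2 hne
  obtain ⟨k, rfl⟩ := Nat.exists_eq_add_of_le hmn
  obtain ⟨q, rfl⟩ := Nat.exists_eq_add_of_le' hm
  rw [card_lot, card_treeOn _ ⟨0, by omega⟩]
  have h1 := bad_ge Γ₀ h₀ k
  have h2 := num q k (by omega)
  have h3 : q + 1 + k = k + 1 + q := by omega
  calc (q + 1 + k) ^ (q + 1 + k - 2) * (2 ^ (q + 1 + k - 1) * (q + 1 + k) ^ (q + 1 + k - 1))
      ≤ (q + 1 + k) ^ (6 * q) * ((k + 1) ^ (k - 1) * (2 ^ k * (k + 1) ^ k)) := by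
        rw [h3]
        exact h2
    _ ≤ (q + 1 + k) ^ (6 * (q + 1)) * ((k + 1) ^ (k - 1) * (2 ^ k * (k + 1) ^ k)) := by
        gcongr
        · omega
        · omega
    _ ≤ _ := Nat.mul_le_mul_left _ h1

/-- the same for all large `n`, with real numbers -/
theorem bad_proportion (Γ₀ : LOT (Fin m)) (h₀ : ¬ LotAsph Γ₀) :
    ∀ᶠ n : ℕ in Filter.atTop, (n : ℝ) ^ (-(6 * m : ℝ)) * Nat.card (LOT (Fin n)) ≤
      ({Γ : LOT (Fin n) | ¬ LotAsph Γ}.ncard : ℝ) := by
  filter_upwards [Filter.eventually_ge_atTop (m + 2)] with n hn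
  have h1 := bad_count Γ₀ h₀ n (by omega) (by omega)
  have hn0 : (0 : ℝ) < n := by exact_mod_cast (by omega : 0 < n)
  rw [Real.rpow_neg hn0.le, inv_mul_le_iff₀ (by positivity)]
  have h2 : (n : ℝ) ^ (6 * m : ℝ) = (n : ℝ) ^ (6 * m : ℕ) := by
    rw [← Real.rpow_natCast]
    push_cast
    rfl
  rw [h2]
  exact_mod_cast h1

end count

end Pool.Agent.OneCell
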