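import Mathlib

/-!
# Free families in free products (module M3)

If every `a i : G i` has infinite order then the elements `of (a i)` of the free product are a free
family. `bsFamily`: a group with free families `a`, `b` such that `b i⁻¹ a i b i = a i ^ 2`.
-/

open Monoid

namespace Pool.Agent.OneCell

universe u v w

section Map

variable {ι : Type u} {H : ι → Type v} {G : ι → Type w} [∀ i, Group (H i)] [∀ i, Group (G i)]

/-- a reduced word mapped by injective homomorphisms is reduced -/
private def neMap (f : ∀ i, H i →* G i) (hf : ∀ i, Function.Injective (f i)) :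
    ∀ {i j : ι}, CoprodI.NeWord H i j → CoprodI.NeWord G i j
  | _, _, .singleton x hx => .singleton (f _ x) (by
      intro h
      apply hx
      apply hf _
      rw [h, map_one])
  | _, _, .append w₁ hne w₂ => .append (neMap f hf w₁) hne (neMap f hf w₂)

private lemma neMap_prod (f : ∀ i, H i →* G i) (hf : ∀ i, Function.Injective (f i)) {i j : ι}
    (w : CoprodI.NeWord H i j) :
    (neMap f hf w).prod =
      CoprodI.lift (fun i => (CoprodI.of (M := G) (i := i)).comp (f i)) w.prod := by
  induction w with
  | singleton x hx => simp [neMap]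
  | append w₁ hne w₂ ih₁ ih₂ => simp [neMap, ih₁, ih₂]

private lemma ne_prod {i j : ι} (w : CoprodI.NeWord G i j) : w.prod ≠ 1 := by
  classical
  intro h
  have h1 : w.toWord = CoprodI.Word.empty := by
    have h2 : CoprodI.Word.equiv w.prod = w.toWord := by
      have h3 : w.prod = CoprodI.Word.equiv.symm w.toWord := rfl
      rw [h3, Equiv.apply_symm_apply]
    have h4 : CoprodI.Word.equiv (1 : CoprodI G) = CoprodI.Word.empty := by
      have h5 : (1 : CoprodI G) = CoprodI.Word.equiv.symm CoprodI.Word.empty :=
        (CoprodI.Word.prod_empty (M := G)).symm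
      rw [h5, Equiv.apply_symm_apply]
    rw [← h2, h, h4]
  have h2 := congrArg CoprodI.Word.toList h1
  exact w.toList_ne_nil h2

/-- the map of free products induced by injective homomorphisms is injective -/
theorem coprodI_map_injective (f : ∀ i, H i →* G i) (hf : ∀ i, Function.Injective (f i)) :
    Function.Injective
      (CoprodI.lift (fun i => (CoprodI.of (M := G) (i := i)).comp (f i)) : CoprodI H →* CoprodI G) := by
  classical
  rw [injective_iff_map_eq_one]
  intro x hx
  by_contra hne
  have h1 : CoprodI.Word.equiv x ≠ CoprodI.Word.empty := by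
    intro h2
    apply hne
    have h3 : x = CoprodI.Word.equiv.symm (CoprodI.Word.equiv x) :=
      (Equiv.symm_apply_apply _ _).symm
    rw [h3, h2]
    exact CoprodI.Word.prod_empty
  obtain ⟨i, j, w, hw⟩ := CoprodI.NeWord.of_word _ h1
  have h4 : w.prod = x := by
    have h5 : w.prod = CoprodI.Word.equiv.symm w.toWord := rfl
    rw [h5, hw, Equiv.symm_apply_apply]
  apply ne_prod (neMap f hf w)
  rw [neMap_prod, h4, hx]

end Map

section Family

variable {ι : Type u} {G : ι → Type w} [∀ i, Group (G i)]

/-- elements of infinite order of the factors are a free family of the free product -/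
theorem free_of_infinite_order (a : ∀ i, G i) (ha : ∀ i, ∀ n : ℤ, a i ^ n = 1 → n = 0) :
    Function.Injective
      (FreeGroup.lift (fun i => (CoprodI.of (a i) : CoprodI G)) : FreeGroup ι →* CoprodI G) := by
  have hf : ∀ i, Function.Injective (FreeGroup.lift (fun _ : Unit => a i) : FreeGroup Unit →* G i) := by
    intro i
    rw [injective_iff_map_eq_one]
    refine FreeGroup.freeGroupUnitEquivInt.forall_congr_left.mpr ?_
    intro n hn
    have h1 : FreeGroup.freeGroupUnitEquivInt.symm n = FreeGroup.of () ^ n := rfl
    rw [h1] at hn ⊢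
    rw [map_zpow, FreeGroup.lift_apply_of] at hn
    rw [ha i n hn, zpow_zero]
  have h1 : (FreeGroup.lift (fun i => (CoprodI.of (a i) : CoprodI G)) : FreeGroup ι →* CoprodI G) =
      (CoprodI.lift (fun i => (CoprodI.of (M := G) (i := i)).comp
        (FreeGroup.lift (fun _ : Unit => a i)))).comp
        (@freeGroupEquivCoprodI ι).toMonoidHom := by
    ext i
    simp
  rw [h1, MonoidHom.coe_comp]
  exact (coprodI_map_injective _ hf).comp (MulEquiv.injective freeGroupEquivCoprodI)

end Family

/-- translation by one -/
def trP : Equiv.Perm ℚ := Equiv.addRight 1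

/-- division by two -/
def hfP : Equiv.Perm ℚ where
  toFun x := x / 2
  invFun x := x * 2
  left_inv x := by ring
  right_inv x := by ring

private lemma trP_zpow (n : ℤ) (x : ℚ) : (trP ^ n) x = x + n := by
  have hp : ∀ (m : ℕ) (y : ℚ), (trP ^ m) y = y + m := by
    intro m y
    induction m with
    | zero => simp
    | succ m ih =>
      rw [pow_succ', Equiv.Perm.mul_apply, ih]
      simp only [trP, Equiv.coe_addRight]
      push_cast
      ring
  rcases Int.eq_nat_or_neg n with ⟨m, rfl | rfl⟩
  · rw [zpow_natCast, hp]
    push_cast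
    rfl
  · rw [zpow_neg, zpow_natCast, Equiv.Perm.inv_eq_iff_eq, hp]
    push_cast
    ring

private lemma hfP_pow (m : ℕ) (x : ℚ) : (hfP ^ m) x = x / 2 ^ m := by
  induction m generalizing x with
  | zero => simp
  | succ m ih =>
    rw [pow_succ, Equiv.Perm.mul_apply, ih]
    simp only [hfP, Equiv.coe_fn_mk]
    rw [pow_succ]
    field_simp

lemma trP_infinite (n : ℤ) (h : trP ^ n = 1) : n = 0 := by
  have h1 := trP_zpow n 0
  rw [h, Equiv.Perm.one_apply, zero_add] at h1
  exact_mod_cast h1.symm

lemma hfP_infinite (n : ℤ) (h : hfP ^ n = 1) : n = 0 := by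
  have key : ∀ m : ℕ, hfP ^ m = 1 → m = 0 := by
    intro m hm
    have h1 := hfP_pow m 1
    rw [hm, Equiv.Perm.one_apply] at h1
    by_contra hne
    have h2 : (1:ℚ) < 2 ^ m := one_lt_pow₀ (by norm_num) hne
    have h3 : (1:ℚ) / 2 ^ m < 1 := by
      rw [div_lt_one (by positivity)]
      exact h2
    linarith
  rcases Int.eq_nat_or_neg n with ⟨m, rfl | rfl⟩
  · rw [zpow_natCast] at h
    have := key m h
    omega
  · rw [zpow_neg, zpow_natCast, inv_eq_one] at h
    have := key m h
    omega

lemma hfP_trP : hfP⁻¹ * trP * hfP = trP * trP := by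
  ext x
  simp only [Equiv.Perm.mul_apply]
  rw [Equiv.Perm.inv_eq_iff_eq]
  simp only [trP, hfP, Equiv.coe_addRight, Equiv.coe_fn_mk]
  ring

/-- **Free families with Baumslag–Solitar relations.** -/
theorem exists_bs_family (ι : Type u) : ∃ (Q : Type u) (_ : Group Q) (a b : ι → Q),
    (∀ i, (b i)⁻¹ * a i * b i = a i * a i) ∧
    Function.Injective (FreeGroup.lift a : FreeGroup ι →* Q) ∧
    Function.Injective (FreeGroup.lift b : FreeGroup ι →* Q) := by
  refine ⟨CoprodI (fun _ : ι => Equiv.Perm ℚ), inferInstance,
    fun i => CoprodI.of (i := i) trP, fun i => CoprodI.of (i := i) hfP, fun i => ?_, ?_, ?_⟩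
  · have h := congrArg (CoprodI.of (M := fun _ : ι => Equiv.Perm ℚ) (i := i)) hfP_trP
    simpa only [map_mul, map_inv] using h
  · exact free_of_infinite_order (G := fun _ : ι => Equiv.Perm ℚ) (fun _ => trP)
      (fun _ n h => trP_infinite n h)
  · exact free_of_infinite_order (G := fun _ : ι => Equiv.Perm ℚ) (fun _ => hfP)
      (fun _ n h => hfP_infinite n h)

end Pool.Agent.OneCell
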